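import Pool.Agent.W872.SV.Stm

/-! The switching deck determines the degrees (part EDG of project SV). -/

set_option autoImplicit false

open Finset W872.SV

namespace W740.SV.EDG

open Classical in
noncomputable def ind {n : ℕ} (G : SimpleGraph (Fin n)) (a b : Fin n) : ℤ :=
  if G.Adj a b then 1 else 0

noncomputable def E {n : ℕ} (G : SimpleGraph (Fin n)) : ℤ := ∑ a, ∑ b, ind G a b

theorem dg_eq {n : ℕ} (G : SimpleGraph (Fin n)) (i : Fin n) : (dg G i : ℤ) = ∑ b, ind G i b := by
  classical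
  unfold dg ind
  rw [Finset.card_filter]
  push_cast
  refine Finset.sum_congr rfl fun b _ => ?_
  congr

theorem E_eq {n : ℕ} (G : SimpleGraph (Fin n)) : E G = ∑ i, (dg G i : ℤ) :=
  Finset.sum_congr rfl fun i _ => (dg_eq G i).symm

theorem ind_symm {n : ℕ} (G : SimpleGraph (Fin n)) (a b : Fin n) : ind G a b = ind G b a := by
  unfold ind
  by_cases h : G.Adj a b
  · rw [if_pos h, if_pos h.symm]
  · rw [if_neg h, if_neg fun h' => h h'.symm]

def dl {n : ℕ} (i a : Fin n) : ℤ := if a = i then 1 else 0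

theorem ind_sw {n : ℕ} (G : SimpleGraph (Fin n)) (i a b : Fin n) :
    ind (sw G i) a b = ind G a b + dl i a * (1 - 2 * ind G a b) + dl i b * (1 - 2 * ind G a b)
      - dl i a * (dl i b * (2 * (1 - 2 * ind G a b))) := by
  have hsw : (sw G i).Adj a b ↔ (a ≠ b ∧ (G.Adj a b ↔ (a ≠ i ∧ b ≠ i))) := Iff.rfl
  unfold ind dl
  by_cases hai : a = i
  · by_cases hbi : b = i
    · have hab : a = b := hai.trans hbi.symm
      have h1 : ¬ (sw G i).Adj a b := by rw [hab]; exact (sw G i).loopless.irrefl b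
      have h2 : ¬ G.Adj a b := by rw [hab]; exact G.loopless.irrefl b
      rw [if_neg h1, if_neg h2, if_pos hai, if_pos hbi]
      norm_num
    · have hab : a ≠ b := fun h => hbi (h.symm.trans hai)
      by_cases hG : G.Adj a b
      · have h1 : ¬ (sw G i).Adj a b := by
          rw [hsw]
          intro h
          exact (h.2.1 hG).1 hai
        rw [if_neg h1, if_pos hG, if_pos hai, if_neg hbi]
        norm_num
      · have h1 : (sw G i).Adj a b := by
          rw [hsw]
          exact ⟨hab, fun h => absurd h hG, fun h => absurd hai h.1⟩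
        rw [if_pos h1, if_neg hG, if_pos hai, if_neg hbi]
        norm_num
  · by_cases hbi : b = i
    · have hab : a ≠ b := fun h => hai (h.trans hbi)
      by_cases hG : G.Adj a b
      · have h1 : ¬ (sw G i).Adj a b := by
          rw [hsw]
          intro h
          exact (h.2.1 hG).2 hbi
        rw [if_neg h1, if_pos hG, if_neg hai, if_pos hbi]
        norm_num
      · have h1 : (sw G i).Adj a b := by
          rw [hsw]
          exact ⟨hab, fun h => absurd h hG, fun h => absurd hbi h.2⟩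
        rw [if_pos h1, if_neg hG, if_neg hai, if_pos hbi]
        norm_num
    · by_cases hG : G.Adj a b
      · have h1 : (sw G i).Adj a b := by
          rw [hsw]
          exact ⟨G.ne_of_adj hG, fun _ => ⟨hai, hbi⟩, fun _ => hG⟩
        rw [if_pos h1, if_pos hG, if_neg hai, if_neg hbi]
        norm_num
      · have h1 : ¬ (sw G i).Adj a b := by
          rw [hsw]
          intro h
          exact hG (h.2.2 ⟨hai, hbi⟩)
        rw [if_neg h1, if_neg hG, if_neg hai, if_neg hbi]
        norm_num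

theorem sum_dl {n : ℕ} (i : Fin n) (f : Fin n → ℤ) : ∑ a, dl i a * f a = f i := by
  unfold dl
  simp [ite_mul]

theorem E_sw {n : ℕ} (G : SimpleGraph (Fin n)) (i : Fin n) :
    E (sw G i) = E G + 2 * ((n : ℤ) - 1) - 4 * (dg G i : ℤ) := by
  have h1 : ∑ b, (1 - 2 * ind G i b) = (n : ℤ) - 2 * (dg G i : ℤ) := by
    rw [Finset.sum_sub_distrib, ← Finset.mul_sum, ← dg_eq]
    simp
  have h2 : ∑ a, (1 - 2 * ind G a i) = (n : ℤ) - 2 * (dg G i : ℤ) := by
    rw [← h1]
    exact Finset.sum_congr rfl fun a _ => by rw [ind_symm]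
  have h3 : ind G i i = 0 := by
    unfold ind
    rw [if_neg (G.loopless.irrefl i)]
  unfold E
  simp only [ind_sw]
  simp only [Finset.sum_sub_distrib, Finset.sum_add_distrib]
  have e1 : ∑ a, ∑ b, dl i a * (1 - 2 * ind G a b) = (n : ℤ) - 2 * (dg G i : ℤ) := by
    rw [Finset.sum_comm, ← h1]
    exact Finset.sum_congr rfl fun b _ => sum_dl i (fun a => 1 - 2 * ind G a b)
  have e2 : ∑ a, ∑ b, dl i b * (1 - 2 * ind G a b) = (n : ℤ) - 2 * (dg G i : ℤ) := by
    rw [← h2]
    exact Finset.sum_congr rfl fun a _ => sum_dl i (fun b => 1 - 2 * ind G a b)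
  have e3 : ∑ a, ∑ b, dl i a * (dl i b * (2 * (1 - 2 * ind G a b))) = 2 := by
    have e4 : ∀ a, ∑ b, dl i a * (dl i b * (2 * (1 - 2 * ind G a b))) =
        dl i a * (2 * (1 - 2 * ind G a i)) := by
      intro a
      rw [← Finset.mul_sum, sum_dl i (fun b => 2 * (1 - 2 * ind G a b))]
    rw [Finset.sum_congr rfl fun a _ => e4 a, sum_dl i (fun a => 2 * (1 - 2 * ind G a i)), h3]
    norm_num
  rw [e1, e2, e3]
  ring

theorem E_iso {n : ℕ} {G H : SimpleGraph (Fin n)} (e : G ≃g H) : E G = E H := by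
  unfold E
  refine Fintype.sum_equiv e.toEquiv _ _ fun a => ?_
  refine Fintype.sum_equiv e.toEquiv _ _ fun b => ?_
  have h : H.Adj (e.toEquiv a) (e.toEquiv b) ↔ G.Adj a b := e.map_rel_iff'
  unfold ind
  by_cases hG : G.Adj a b
  · rw [if_pos hG, if_pos (h.2 hG)]
  · rw [if_neg hG, if_neg fun h' => hG (h.1 h')]

theorem main : PartEDG := by
  intro n hn G H σ h
  have h1 : ∀ i, E G - 4 * (dg G i : ℤ) = E H - 4 * (dg H (σ i) : ℤ) := by
    intro i
    obtain ⟨e⟩ := h i
    have h2 := E_iso e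
    rw [E_sw, E_sw] at h2
    linarith
  have h3 : (n : ℤ) * E G - 4 * E G = (n : ℤ) * E H - 4 * E H := by
    have h4 := Finset.sum_congr (rfl : (univ : Finset (Fin n)) = univ) fun i _ => h1 i
    rw [Finset.sum_sub_distrib, Finset.sum_sub_distrib, ← Finset.mul_sum, ← Finset.mul_sum,
      Equiv.sum_comp σ (fun i => (dg H i : ℤ)), ← E_eq, ← E_eq] at h4
    simpa using h4
  have h5 : ((n : ℤ) - 4) * (E G - E H) = 0 := by linarith
  have h6 : ((n : ℤ) - 4) ≠ 0 := by
    intro h7
    apply hn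
    have h8 : (n : ℤ) = 4 := by linarith
    exact_mod_cast h8
  have h9 : E G - E H = 0 := (mul_eq_zero.1 h5).resolve_left h6
  intro i
  have h10 := h1 i
  have h11 : (dg G i : ℤ) = (dg H (σ i) : ℤ) := by linarith
  exact_mod_cast h11

end W740.SV.EDG
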